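import Pool.Agent.helper69.AD.GS1

/-! # Project ad, geometry module BD4: cyclic order axioms -/

open scoped MatrixGroups LinearAlgebra.Projectivization
open Matrix UpperHalfPlane

namespace AdSBend

theorem BD4_ne (h3 : BD3_stmt) (x y z : Bd) (h : Cyc x y z) : x ≠ y ∧ y ≠ z ∧ z ≠ x := by
  obtain ⟨φ, -, -, -, -, hx⟩ := h3 x
  obtain ⟨ψ, -, -, -, -, hy⟩ := h3 y
  refine ⟨?_, ?_, ?_⟩
  · rintro rfl
    exact (hx z z).1 h
  · rintro rfl
    exact (hy x x).2.2.1 h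
  · rintro rfl
    exact (hx y y).2.1 h

theorem BD4 (h3 : BD3_stmt) : BD4_stmt := by
  refine ⟨BD4_ne h3, ?_, ?_, ?_, ?_, ?_⟩
  · intro x y z h
    obtain ⟨φ, -, -, -, -, hx⟩ := h3 x
    exact (hx y z).2.2.2.1.2 h
  · intro x y z h h'
    obtain ⟨h1, h2, h4⟩ := BD4_ne h3 x y z h
    obtain ⟨φ, -, -, hc, -, -⟩ := h3 x
    have e1 := (hc y z h1.symm h4).1 h
    have e2 := (hc z y h4 h1.symm).1 h'
    linarith
  · intro x y z h1 h2 h4
    obtain ⟨φ, -, hi, hc, -, -⟩ := h3 x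
    rcases lt_trichotomy (φ y) (φ z) with h | h | h
    · exact Or.inl ((hc y z h1.symm h4).2 h)
    · exact absurd (hi y z h1.symm h4 h) h2
    · exact Or.inr ((hc z y h4 h1.symm).2 h)
  · intro x y z w h h'
    obtain ⟨h1, h2, h4⟩ := BD4_ne h3 x y z h
    obtain ⟨h5, h6, h7⟩ := BD4_ne h3 x z w h'
    obtain ⟨φ, -, -, hc, hd, -⟩ := h3 x
    have e1 := (hc y z h1.symm h4).1 h
    have e2 := (hc z w h4 h7).1 h'
    exact ⟨(hc y w h1.symm h7).2 (e1.trans e2), (hd y z w h1.symm h4 h7).2 (Or.inl ⟨e1, e2⟩)⟩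
  · intro x y h
    obtain ⟨φ, hs, -, hc, -, -⟩ := h3 x
    obtain ⟨z, hz, hz'⟩ := hs (φ y - 1)
    exact ⟨z, (hc z y hz h.symm).2 (by rw [hz']; linarith)⟩

end AdSBend
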