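import Pool.Agent.helper69.AD.GS1

/-! # Project ad, geometry module PT2: segments -/

open scoped MatrixGroups LinearAlgebra.Projectivization
open Matrix UpperHalfPlane

namespace AdSBend

theorem PT2_side (z : ℍ) (x y : Bd) : side z x y =
    (x.rep 0 * y.rep 0 - z.re * (x.rep 0 * y.rep 1 + x.rep 1 * y.rep 0)
      + (z.re ^ 2 + z.im ^ 2) * (x.rep 1 * y.rep 1)) * dt x.rep y.rep := by
  unfold side
  ring

theorem PT2_ext {w w' : ℍ} (h1 : w.re = w'.re) (h2 : w.im = w'.im) : w = w' := by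
  apply UpperHalfPlane.ext
  apply Complex.ext
  · exact h1
  · exact h2

theorem PT2 : PT2_stmt := by
  refine ⟨?_, ?_, ?_, ?_⟩
  · intro z z' s hs0 hs1
    have hb := z.im_pos
    have hb' := z'.im_pos
    have hpos : 0 < segSq z z' s - segRe z z' s ^ 2 := by
      have e : segSq z z' s - segRe z z' s ^ 2 = (1 - s) * z.im ^ 2 + s * z'.im ^ 2
          + s * (1 - s) * (z.re - z'.re) ^ 2 := by
        unfold segSq segRe
        ring
      rw [e]
      have h1 : 0 ≤ s * (1 - s) * (z.re - z'.re) ^ 2 :=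
        mul_nonneg (mul_nonneg hs0 (by linarith)) (sq_nonneg _)
      rcases hs0.eq_or_lt with h | h
      · rw [← h]
        have : 0 < z.im ^ 2 := by positivity
        simpa using this
      · have h2 : 0 ≤ (1 - s) * z.im ^ 2 := mul_nonneg (by linarith) (sq_nonneg _)
        have h3 : 0 < s * z'.im ^ 2 := by positivity
        linarith
    have him : 0 < Real.sqrt (segSq z z' s - segRe z z' s ^ 2) := Real.sqrt_pos.2 hpos
    refine ⟨⟨⟨segRe z z' s, Real.sqrt (segSq z z' s - segRe z z' s ^ 2)⟩, him⟩, rfl, ?_⟩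
    show segRe z z' s ^ 2 + Real.sqrt (segSq z z' s - segRe z z' s ^ 2) ^ 2 = segSq z z' s
    rw [Real.sq_sqrt hpos.le]
    ring
  · intro z z' w s hw x y
    rw [PT2_side, PT2_side, PT2_side, hw.2, hw.1]
    unfold segSq segRe
    ring
  · intro z z' w w' s hw hw'
    have h1 : w.re = w'.re := hw.1.trans hw'.1.symm
    refine PT2_ext h1 ?_
    have h2 : w.re ^ 2 + w.im ^ 2 = w'.re ^ 2 + w'.im ^ 2 := hw.2.trans hw'.2.symm
    have h3 : w.im ^ 2 = w'.im ^ 2 := by rw [h1] at h2; linarith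
    exact (pow_left_inj₀ w.im_pos.le w'.im_pos.le two_ne_zero).1 h3
  · intro z z'
    refine ⟨⟨?_, ?_⟩, ⟨?_, ?_⟩⟩ <;> simp [segRe, segSq]

end AdSBend
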